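import Pool.Agent.Helper63.TH.Goals

/-!
# MP_705522_gt, thresholds: packet CXO (convex order, lower bounds of `f0 θ' - f0 θ`)
-/

set_option autoImplicit false

namespace Pool.Agent.Helper93.TH

open MeasureTheory Set Filter Topology
open Pool.Agent.Helper53.PT

/-- The comparison for `cos √(x s) + a s² + b s³`. -/
theorem cmp3 {θ θ' : ℝ} (h0 : 0 < θ) (h : θ ≤ θ') (h1 : θ' < 1 / 2) {x : ℝ} (hx : 0 < x) (a b : ℝ)
    (hab : ∀ s, 0 < s → 0 ≤ -(x ^ 2 / 2) * k2 (√(x * s)) + 2 * a + 6 * b * s) :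
    f0 θ x + a * mo θ 2 + b * mo θ 3 ≤ f0 θ' x + a * mo θ' 2 + b * mo θ' 3 := by
  obtain ⟨hK2, -, -, hKb, hKf, hKd, hKc2, hKc3, hKc4⟩ := Pool.Agent.Helper32.PT.gKER
  have dc : ∀ v, 0 < v → HasDerivAt (fun v => Real.cos (√v)) (-(Real.sinc (√v)) / 2) v := by
    intro v hv
    have h1 := (Real.hasDerivAt_sqrt hv.ne').cos
    refine h1.congr_deriv ?_
    have : √v ≠ 0 := (Real.sqrt_pos.2 hv).ne'
    rw [Real.sinc_of_ne_zero this]
    field_simp
  have hd1 : ∀ s, 0 < s → HasDerivAt (fun s => Real.cos (√(x * s)) + a * s ^ 2 + b * s ^ 3)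
      (-(x / 2) * Real.sinc (√(x * s)) + 2 * a * s + 3 * b * s ^ 2) s := by
    intro s hs
    have e1 := Pool.Agent.Helper9.PT.chain dc hx s hs
    have e2 := ((hasDerivAt_id s).pow 2).const_mul a
    have e3 := ((hasDerivAt_id s).pow 3).const_mul b
    refine ((e1.add e2).add e3).congr_deriv ?_
    simp only [id]
    ring
  have hd2 : ∀ s, 0 < s → HasDerivAt
      (fun s => -(x / 2) * Real.sinc (√(x * s)) + 2 * a * s + 3 * b * s ^ 2)
      (-(x ^ 2 / 2) * k2 (√(x * s)) + 2 * a + 6 * b * s) s := by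
    intro s hs
    have e1 := (Pool.Agent.Helper9.PT.chain (fun v hv => (hKd v hv).1) hx s hs).const_mul (-(x / 2))
    have e2 := (hasDerivAt_id s).const_mul (2 * a)
    have e3 := ((hasDerivAt_id s).pow 2).const_mul (3 * b)
    refine ((e1.add e2).add e3).congr_deriv ?_
    simp only [id]
    ring
  have hc : Continuous (fun s : ℝ => Real.cos (√(x * s)) + a * s ^ 2 + b * s ^ 3) := by fun_prop
  have hconv : ConvexOn ℝ (Ici 0) (fun s => Real.cos (√(x * s)) + a * s ^ 2 + b * s ^ 3) := by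
    apply convexOn_of_hasDerivWithinAt2_nonneg
      (f' := fun s => -(x / 2) * Real.sinc (√(x * s)) + 2 * a * s + 3 * b * s ^ 2)
      (f'' := fun s => -(x ^ 2 / 2) * k2 (√(x * s)) + 2 * a + 6 * b * s) (convex_Ici 0)
      hc.continuousOn
    · intro y hy
      rw [interior_Ici] at hy ⊢
      exact (hd1 y hy).hasDerivWithinAt
    · intro y hy
      rw [interior_Ici] at hy ⊢
      exact (hd2 y hy).hasDerivWithinAt
    · intro y hy
      rw [interior_Ici] at hy
      exact hab y hy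
  have hg : ∃ (C : ℝ) (N : ℕ), ∀ s, 0 ≤ s →
      |Real.cos (√(x * s)) + a * s ^ 2 + b * s ^ 3| ≤ C * (1 + s) ^ N := by
    refine ⟨1 + |a| + |b|, 3, fun s hs => ?_⟩
    have e0 : |Real.cos (√(x * s))| ≤ 1 := Real.abs_cos_le_one _
    have e1 : |a * s ^ 2| ≤ |a| * (1 + s) ^ 3 := by
      rw [abs_mul, abs_of_nonneg (show (0:ℝ) ≤ s ^ 2 by positivity)]
      apply mul_le_mul_of_nonneg_left _ (abs_nonneg _)
      nlinarith [pow_nonneg hs 3, pow_nonneg hs 2]
    have e2 : |b * s ^ 3| ≤ |b| * (1 + s) ^ 3 := by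
      rw [abs_mul, abs_of_nonneg (show (0:ℝ) ≤ s ^ 3 by positivity)]
      apply mul_le_mul_of_nonneg_left _ (abs_nonneg _)
      nlinarith [pow_nonneg hs 3, pow_nonneg hs 2]
    have e3 : (1:ℝ) ≤ (1 + s) ^ 3 := one_le_pow₀ (by linarith)
    have e4 := abs_add_le (Real.cos (√(x * s)) + a * s ^ 2) (b * s ^ 3)
    have e5 := abs_add_le (Real.cos (√(x * s))) (a * s ^ 2)
    nlinarith [e0, e1, e2, e3, e4, e5]
  have key := aCX h0 h h1 _ hconv hc.continuousOn hg
  have val : ∀ {τ : ℝ} (t0 : 0 < τ) (t1 : τ < 1 / 2),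
      ∫ y, (Real.cos (√(x * y ^ 2)) + a * (y ^ 2) ^ 2 + b * (y ^ 2) ^ 3) ∂(nu τ) =
        f0 τ x + a * mo τ 2 + b * mo τ 3 := by
    intro τ t0 t1
    obtain ⟨hP, hpos, hi, hmo, -, hf, -⟩ := aLAW t0 t1
    have j0 := (Pool.Agent.Helper9.PT.ints hx.le hpos).1
    have i0 : Integrable (fun y : ℝ => Real.cos (√(x * y ^ 2))) (nu τ) := by
      apply Pool.Agent.Helper9.PT.int_of_growth hi (fun s => Real.cos (√(x * s)))
      · fun_prop
      · exact ⟨1, 0, fun s _ => by simpa using Real.abs_cos_le_one _⟩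
    have i2 : Integrable (fun y : ℝ => a * (y ^ 2) ^ 2) (nu τ) := by
      have := (hi 4).const_mul a
      refine this.congr (Eventually.of_forall fun y => ?_)
      simp only
      ring
    have i3 : Integrable (fun y : ℝ => b * (y ^ 2) ^ 3) (nu τ) := by
      have := (hi 6).const_mul b
      refine this.congr (Eventually.of_forall fun y => ?_)
      simp only
      ring
    have v2 : ∫ y, a * (y ^ 2) ^ 2 ∂(nu τ) = a * mo τ 2 := by
      rw [integral_const_mul, ← hmo 2]
      simp [← pow_mul]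
    have v3 : ∫ y, b * (y ^ 2) ^ 3 ∂(nu τ) = b * mo τ 3 := by
      rw [integral_const_mul, ← hmo 3]
      simp [← pow_mul]
    have i02 : Integrable (fun y : ℝ => Real.cos (√(x * y ^ 2)) + a * (y ^ 2) ^ 2) (nu τ) := i0.add i2
    rw [integral_add i02 i3, integral_add i0 i2, v2, v3, j0, (hf x hx.le).1]
  rw [val h0 (h.trans_lt h1), val (h0.trans_le h) h1] at key
  exact key

/-- `k2 (√v) ≤ -1/6 + v/60` -/
theorem k2_le (v : ℝ) (hv : 0 < v) : k2 (√v) ≤ -(1 / 6) + v / 60 := by
  obtain ⟨hK2, -, -, hKb, hKf, hKd, hKc2, hKc3, hKc4⟩ := Pool.Agent.Helper32.PT.gKER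
  have hk0 : k2 0 = -(1 / 6) := by
    have h1 := hK2 0
    have h2 : HasSum (fun j : ℕ => (-1 : ℝ) ^ (j + 1) * ((j : ℝ) + 1) / ((2 * j + 3).factorial : ℝ) *
        0 ^ (2 * j)) (-(1 / 6)) := by
      convert hasSum_single (f := fun j : ℕ => (-1 : ℝ) ^ (j + 1) * ((j : ℝ) + 1) /
        ((2 * j + 3).factorial : ℝ) * 0 ^ (2 * j)) 0 ?_ using 1
      · norm_num [Nat.factorial]
      · intro j hj
        rw [zero_pow (by omega), mul_zero]
    exact h1.unique h2
  have hm : MonotoneOn (fun v => v / 60 - k2 (√v)) (Ici 0) := by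
    apply monotoneOn_of_deriv_nonneg (convex_Ici 0)
    · have : Continuous (fun v : ℝ => v / 60 - k2 (√v)) := by
        have := hKc2.comp Real.continuous_sqrt
        exact (continuous_id.div_const 60).sub this
      exact this.continuousOn
    · intro u hu
      rw [interior_Ici] at hu
      exact (((hasDerivAt_id u).div_const 60).sub (hKd u hu).2.1).differentiableAt.differentiableWithinAt
    · intro u hu
      rw [interior_Ici] at hu
      have hd : deriv (fun v => v / 60 - k2 (√v)) u = 1 / 60 - k3 (√u) :=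
        (((hasDerivAt_id u).div_const 60).sub (hKd u hu).2.1).deriv
      rw [hd]
      have := (abs_le.1 (hKb (√u)).2.1).2
      linarith
  have := hm (mem_Ici.2 le_rfl) (mem_Ici.2 hv.le) hv.le
  simp only [Real.sqrt_zero, hk0] at this
  linarith

theorem gCXO : Pool.Agent.Helper63.TH.GCXO := by
  intro hK θ θ' h0 h h1 x hx
  rcases hx.eq_or_lt with hx0 | hx0
  · subst hx0
    rw [f0_zero h0 (h.trans_lt h1), f0_zero (h0.trans_le h) h1]
    constructor <;> simp
  · constructor
    · have := cmp3 h0 h h1 hx0 (-(x ^ 2 / 24)) (x ^ 3 / 720) (by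
        intro s hs
        have e := k2_le (x * s) (mul_pos hx0 hs)
        have h2 : 0 ≤ x ^ 2 / 2 := by positivity
        have h3 := mul_le_mul_of_nonneg_left e h2
        nlinarith [h3])
      linarith
    · have := cmp3 h0 h h1 hx0 (0.00375 * x ^ 2) 0 (by
        intro s hs
        have e := hK (√(x * s))
        have h2 : 0 ≤ x ^ 2 / 2 := by positivity
        have h3 := mul_le_mul_of_nonneg_left e h2
        linarith)
      linarith

end Pool.Agent.Helper93.TH
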